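import Pool.Agent.N44.NS.Defs

/-!
# Project NS (helper44): generation, perfectness and nontriviality of `E_3` (part of S_DATA)
-/

set_option autoImplicit false

namespace Pool.Agent.N680.NS

open Pool.Agent.N44.NS
open scoped commutatorElement

variable {A : Type} [Ring A]

theorem el_add {i j : Fin 3} (h : i ≠ j) (a b : A) : el i j h (a + b) = el i j h a * el i j h b := by
  apply Units.ext
  show (1 : Matrix (Fin 3) (Fin 3) A) + Matrix.single i j (a + b)
    = (1 + Matrix.single i j a) * (1 + Matrix.single i j b)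
  rw [mul_add, add_mul, add_mul, single_sq h a b, Matrix.single_add]
  simp
  abel

/-- the commutator formula -/
theorem el_comm {i m j : Fin 3} (h1 : i ≠ m) (h2 : m ≠ j) (h3 : i ≠ j) (a c : A) :
    el i m h1 a * el m j h2 c * (el i m h1 a)⁻¹ * (el m j h2 c)⁻¹ = el i j h3 (a * c) := by
  rw [mul_inv_eq_iff_eq_mul, mul_inv_eq_iff_eq_mul]
  apply Units.ext
  show (1 + Matrix.single i m a : Matrix (Fin 3) (Fin 3) A) * (1 + Matrix.single m j c)
    = (1 + Matrix.single i j (a * c)) * (1 + Matrix.single m j c) * (1 + Matrix.single i m a)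
  have e1 : Matrix.single i m a * Matrix.single m j c = Matrix.single i j (a * c) :=
    Matrix.single_mul_single_same _ _ _ _ _
  have e2 : Matrix.single i j (a * c) * Matrix.single m j c = (0 : Matrix (Fin 3) (Fin 3) A) :=
    Matrix.single_mul_single_of_ne _ _ _ _ h2.symm _
  have e3 : Matrix.single i j (a * c) * Matrix.single i m a = (0 : Matrix (Fin 3) (Fin 3) A) :=
    Matrix.single_mul_single_of_ne _ _ _ _ h3.symm _
  have e4 : Matrix.single m j c * Matrix.single i m a = (0 : Matrix (Fin 3) (Fin 3) A) :=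
    Matrix.single_mul_single_of_ne _ _ _ _ h3.symm _
  simp only [mul_add, add_mul, one_mul, mul_one, e1, e2, e3, e4, add_zero]
  abel

theorem exists_third {i j : Fin 3} (_h : i ≠ j) : ∃ m : Fin 3, i ≠ m ∧ m ≠ j := by
  revert _h
  revert i j
  decide

/-- **Generation**: a subgroup `M` containing the elementary matrices of type `P'' A P''` and those
of type `(q b = 0, b p = 0)` contains all the elementary matrices. -/
theorem genCore (p q p' q' P : Fin 3 → A) (hq : ∀ i, q i * p i = 1) (hq' : ∀ i, q' i * p' i = 1)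
    (hqp' : ∀ i, q i * p' i = 0) (hq'p : ∀ i, q' i * p i = 0)
    (hP1 : ∀ i, P i * p i = p i) (hP2 : ∀ i, q i * P i = q i)
    (hP3 : ∀ i, P i * p' i = p' i) (hP4 : ∀ i, q' i * P i = q' i)
    (hid : ∀ i, P i * P i = P i)
    (M : Subgroup (Matrix (Fin 3) (Fin 3) A)ˣ)
    (ha : ∀ (i j : Fin 3) (h : i ≠ j) (b : A), P i * b * P j = b → el i j h b ∈ M)
    (hb : ∀ (i j : Fin 3) (h : i ≠ j) (b : A), q i * b = 0 → b * p j = 0 → el i j h b ∈ M) :
    ∀ (i j : Fin 3) (h : i ≠ j) (b : A), el i j h b ∈ M := by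
  intro i j h b
  obtain ⟨m, h1, h2⟩ := exists_third h
  have q1 : ∀ k, q k * (1 - P k) = 0 := fun k => by rw [mul_sub, mul_one, hP2, sub_self]
  have p1 : ∀ k, (1 - P k) * p k = 0 := fun k => by rw [sub_mul, one_mul, hP1, sub_self]
  have comm : ∀ a c : A, el i m h1 a ∈ M → el m j h2 c ∈ M → el i j h (a * c) ∈ M := by
    intro a c hA hC
    rw [← el_comm h1 h2 h a c]
    exact M.mul_mem (M.mul_mem (M.mul_mem hA hC) (M.inv_mem hA)) (M.inv_mem hC)
  have hsum : ∀ a c : A, el i j h a ∈ M → el i j h c ∈ M → el i j h (a + c) ∈ M := by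
    intro a c hA hC
    rw [el_add]
    exact M.mul_mem hA hC
  -- the six parts
  have t1 : el i j h (P i * b * P j) ∈ M := by
    apply ha
    calc P i * (P i * b * P j) * P j = (P i * P i) * b * (P j * P j) := by noncomm_ring
      _ = _ := by rw [hid, hid]
  have t2 : el i j h ((1 - P i) * b * (1 - P j)) ∈ M := by
    apply hb
    · calc q i * ((1 - P i) * b * (1 - P j)) = (q i * (1 - P i)) * b * (1 - P j) := by
            simp only [mul_assoc]
        _ = 0 := by rw [q1, zero_mul, zero_mul]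
    · rw [mul_assoc, p1, mul_zero]
  have t3 : el i j h ((P i - p i * q i) * b * (1 - P j)) ∈ M := by
    apply hb
    · have e : q i * (P i - p i * q i) = 0 := by
        rw [mul_sub, hP2, ← mul_assoc, hq, one_mul, sub_self]
      rw [← mul_assoc, ← mul_assoc, e, zero_mul, zero_mul]
    · rw [mul_assoc, p1, mul_zero]
  have t4 : el i j h ((p i * q i) * b * (1 - P j)) ∈ M := by
    have e : (p i * q i) * b * (1 - P j) = (p i * q i * q' m) * (p' m * b * (1 - P j)) := by
      calc (p i * q i) * b * (1 - P j) = p i * q i * 1 * b * (1 - P j) := by rw [mul_one]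
        _ = p i * q i * (q' m * p' m) * b * (1 - P j) := by rw [hq']
        _ = _ := by simp only [mul_assoc]
    rw [e]
    apply comm
    · apply ha
      calc P i * (p i * q i * q' m) * P m = (P i * p i) * q i * (q' m * P m) := by
            simp only [mul_assoc]
        _ = _ := by rw [hP1, hP4]
    · apply hb
      · rw [← mul_assoc, ← mul_assoc, hqp', zero_mul, zero_mul]
      · rw [mul_assoc, p1, mul_zero]
  have t5 : el i j h ((1 - P i) * b * (P j - p j * q j)) ∈ M := by
    apply hb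
    · rw [← mul_assoc, ← mul_assoc, q1, zero_mul, zero_mul]
    · have e : (P j - p j * q j) * p j = 0 := by
        rw [sub_mul, hP1, mul_assoc, hq, mul_one, sub_self]
      rw [mul_assoc, e, mul_zero]
  have t6 : el i j h ((1 - P i) * b * (p j * q j)) ∈ M := by
    have e : (1 - P i) * b * (p j * q j) = ((1 - P i) * q' m) * (p' m * b * (p j * q j)) := by
      calc (1 - P i) * b * (p j * q j) = (1 - P i) * 1 * b * (p j * q j) := by rw [mul_one]
        _ = (1 - P i) * (q' m * p' m) * b * (p j * q j) := by rw [hq']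
        _ = _ := by simp only [mul_assoc]
    rw [e]
    apply comm
    · apply hb
      · rw [← mul_assoc, q1, zero_mul]
      · rw [mul_assoc, hq'p, mul_zero]
    · apply ha
      calc P m * (p' m * b * (p j * q j)) * P j = (P m * p' m) * b * (p j * (q j * P j)) := by
            simp only [mul_assoc]
        _ = _ := by rw [hP3, hP2]
  have key : b = P i * b * P j + (1 - P i) * b * (1 - P j) + (P i - p i * q i) * b * (1 - P j)
      + (p i * q i) * b * (1 - P j) + (1 - P i) * b * (P j - p j * q j)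
      + (1 - P i) * b * (p j * q j) := by
    noncomm_ring
  rw [key]
  exact hsum _ _ (hsum _ _ (hsum _ _ (hsum _ _ (hsum _ _ t1 t2) t3) t4) t5) t6

/-- the elementary matrices as elements of `E_3(A)` -/
def elE (i j : Fin 3) (h : i ≠ j) (a : A) : E3 A :=
  ⟨el i j h a, Subgroup.subset_closure ⟨i, j, h, a, rfl⟩⟩

/-- a subgroup of `E_3(A)` containing the elementary matrices is everything -/
theorem top_of_el (N : Subgroup (E3 A)) (hN : ∀ (i j : Fin 3) (h : i ≠ j) (a : A), elE i j h a ∈ N) :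
    N = ⊤ := by
  rw [eq_top_iff]
  rintro ⟨g, hg⟩ -
  have key : ∀ g (hg : g ∈ E3 A), (⟨g, hg⟩ : E3 A) ∈ N := by
    intro g hg
    induction hg using Subgroup.closure_induction with
    | mem x hx => obtain ⟨i, j, h, a, rfl⟩ := hx; exact hN i j h a
    | one => exact N.one_mem
    | mul x y hx hy h1 h2 => exact N.mul_mem h1 h2
    | inv x hx h1 => exact N.inv_mem h1
  exact key g hg

/-- `E_3(A)` is perfect. -/
theorem perfE3 : commutator (E3 A) = ⊤ := by
  apply top_of_el
  intro i j h a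
  obtain ⟨m, h1, h2⟩ := exists_third h
  have e : elE i j h a = ⁅elE i m h1 a, elE m j h2 (1 : A)⁆ := by
    apply Subtype.ext
    rw [commutatorElement_def]
    show el i j h a = el i m h1 a * el m j h2 1 * (el i m h1 a)⁻¹ * (el m j h2 1)⁻¹
    rw [el_comm h1 h2 h, mul_one]
  rw [e]
  exact Subgroup.commutator_mem_commutator (Subgroup.mem_top _) (Subgroup.mem_top _)

/-- `E_3(A)` is not trivial. -/
theorem nontrivE3 [Nontrivial A] : ∃ g : E3 A, g ≠ 1 := by
  refine ⟨elE 0 1 (by decide) 1, fun h => ?_⟩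
  have h1 := congrArg (fun g : E3 A => ((g : (Matrix (Fin 3) (Fin 3) A)ˣ) :
    Matrix (Fin 3) (Fin 3) A) 0 1) h
  simp [elE, el, Matrix.single] at h1

/-- The generation lemma for `E_3(A)` and the data `p = (x1, x1, x2)`, ... of the Leavitt relations,
with `P_0 = P_1 = x1 y1 + x2 x1 y1 y2` and `P_2 = x2 y2 + x1 x2 y2 y1 + x1 x1 x2 y2 y1 y1`. -/
theorem genE3 (x1 x2 y1 y2 : A) (hL : Leav x1 x2 y1 y2) (N : Subgroup (E3 A))
    (ha : ∀ (i j : Fin 3) (h : i ≠ j) (b : A),
      (![x1 * y1 + x2 * x1 * y1 * y2, x1 * y1 + x2 * x1 * y1 * y2,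
        x2 * y2 + x1 * x2 * y2 * y1 + x1 * x1 * x2 * y2 * y1 * y1] : Fin 3 → A) i * b *
      (![x1 * y1 + x2 * x1 * y1 * y2, x1 * y1 + x2 * x1 * y1 * y2,
        x2 * y2 + x1 * x2 * y2 * y1 + x1 * x1 * x2 * y2 * y1 * y1] : Fin 3 → A) j = b →
        elE i j h b ∈ N)
    (hb : ∀ (i j : Fin 3) (h : i ≠ j) (b : A), (![y1, y1, y2] : Fin 3 → A) i * b = 0 →
      b * (![x1, x1, x2] : Fin 3 → A) j = 0 → elE i j h b ∈ N) : N = ⊤ := by
  obtain ⟨r11, r22, r12, r21, rs⟩ := hL
  have s11 : ∀ z, y1 * (x1 * z) = z := fun z => by rw [← mul_assoc, r11, one_mul]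
  have s22 : ∀ z, y2 * (x2 * z) = z := fun z => by rw [← mul_assoc, r22, one_mul]
  have s12 : ∀ z, y1 * (x2 * z) = 0 := fun z => by rw [← mul_assoc, r12, zero_mul]
  have s21 : ∀ z, y2 * (x1 * z) = 0 := fun z => by rw [← mul_assoc, r21, zero_mul]
  apply top_of_el
  have hmem : ∀ (i j : Fin 3) (h : i ≠ j) (a : A), elE i j h a ∈ N →
      el i j h a ∈ N.map (E3 A).subtype := fun i j h a hm => ⟨_, hm, rfl⟩
  have hmem' : ∀ (i j : Fin 3) (h : i ≠ j) (a : A), el i j h a ∈ N.map (E3 A).subtype →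
      elE i j h a ∈ N := by
    rintro i j h a ⟨g, hg, hg2⟩
    have : g = elE i j h a := Subtype.ext hg2
    rw [← this]; exact hg
  intro i j h a
  apply hmem'
  refine genCore ![x1, x1, x2] ![y1, y1, y2] ![x2 * x1, x2 * x1, x1 * x2]
    ![y1 * y2, y1 * y2, y2 * y1]
    ![x1 * y1 + x2 * x1 * y1 * y2, x1 * y1 + x2 * x1 * y1 * y2,
        x2 * y2 + x1 * x2 * y2 * y1 + x1 * x1 * x2 * y2 * y1 * y1]
    ?_ ?_ ?_ ?_ ?_ ?_ ?_ ?_ ?_ _ (fun i j h b hh => hmem _ _ _ _ (ha i j h b hh))
    (fun i j h b h1 h2 => hmem _ _ _ _ (hb i j h b h1 h2)) i j h a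
  all_goals
    intro k
    fin_cases k <;>
      simp [mul_assoc, mul_add, add_mul, r11, r22, r12, r21, s11, s22, s12, s21]

end Pool.Agent.N680.NS
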